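import Mathlib

set_option autoImplicit false

open Matrix

namespace Pool.Agent.Lib.MP_40d5d3_al

/-- The free two step nilpotent Lie group on three generators, in exponential coordinates:
`x` is the first layer, `z` the second layer, the bracket is the cross product. -/
@[ext] structure N where
  x : Fin 3 → ℝ
  z : Fin 3 → ℝ

noncomputable instance : Mul N :=
  ⟨fun p q => ⟨p.x + q.x, p.z + q.z + (1 / 2 : ℝ) • crossProduct p.x q.x⟩⟩

instance : One N := ⟨⟨0, 0⟩⟩

instance : Inv N := ⟨fun p => ⟨-p.x, -p.z⟩⟩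

noncomputable instance : Group N :=
  Group.ofLeftAxioms
    (fun a b c => by
      refine N.ext ?_ ?_
      · change a.x + b.x + c.x = a.x + (b.x + c.x)
        abel
      · change a.z + b.z + (1 / 2 : ℝ) • crossProduct a.x b.x + c.z +
            (1 / 2 : ℝ) • crossProduct (a.x + b.x) c.x =
          a.z + (b.z + c.z + (1 / 2 : ℝ) • crossProduct b.x c.x) +
            (1 / 2 : ℝ) • crossProduct a.x (b.x + c.x)
        simp only [map_add, LinearMap.add_apply, smul_add]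
        abel)
    (fun a => by
      refine N.ext ?_ ?_
      · change 0 + a.x = a.x
        simp
      · change 0 + a.z + (1 / 2 : ℝ) • crossProduct 0 a.x = a.z
        simp)
    (fun a => by
      refine N.ext ?_ ?_
      · change -a.x + a.x = 0
        simp
      · change -a.z + a.z + (1 / 2 : ℝ) • crossProduct (-a.x) a.x = 0
        simp)

/-- The real Heisenberg group of dimension `2 n + 1`, in exponential coordinates. -/
@[ext] structure Heis (n : ℕ) where
  a : Fin n → ℝ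
  b : Fin n → ℝ
  c : ℝ

noncomputable instance (n : ℕ) : Mul (Heis n) :=
  ⟨fun p q => ⟨p.a + q.a, p.b + q.b, p.c + q.c + (1 / 2 : ℝ) * (p.a ⬝ᵥ q.b - p.b ⬝ᵥ q.a)⟩⟩

instance (n : ℕ) : One (Heis n) := ⟨⟨0, 0, 0⟩⟩

instance (n : ℕ) : Inv (Heis n) := ⟨fun p => ⟨-p.a, -p.b, -p.c⟩⟩

noncomputable instance (n : ℕ) : Group (Heis n) :=
  Group.ofLeftAxioms
    (fun p q r => by
      refine Heis.ext ?_ ?_ ?_
      · change p.a + q.a + r.a = p.a + (q.a + r.a)
        abel
      · change p.b + q.b + r.b = p.b + (q.b + r.b)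
        abel
      · change p.c + q.c + (1 / 2 : ℝ) * (p.a ⬝ᵥ q.b - p.b ⬝ᵥ q.a) + r.c +
            (1 / 2 : ℝ) * ((p.a + q.a) ⬝ᵥ r.b - (p.b + q.b) ⬝ᵥ r.a) =
          p.c + (q.c + r.c + (1 / 2 : ℝ) * (q.a ⬝ᵥ r.b - q.b ⬝ᵥ r.a)) +
            (1 / 2 : ℝ) * (p.a ⬝ᵥ (q.b + r.b) - p.b ⬝ᵥ (q.a + r.a))
        simp only [add_dotProduct, dotProduct_add]
        ring)
    (fun p => by
      refine Heis.ext ?_ ?_ ?_
      · change 0 + p.a = p.a
        simp
      · change 0 + p.b = p.b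
        simp
      · change 0 + p.c + (1 / 2 : ℝ) * (0 ⬝ᵥ p.b - 0 ⬝ᵥ p.a) = p.c
        simp)
    (fun p => by
      refine Heis.ext ?_ ?_ ?_
      · change -p.a + p.a = 0
        simp
      · change -p.b + p.b = 0
        simp
      · change -p.c + p.c + (1 / 2 : ℝ) * ((-p.a) ⬝ᵥ p.b - (-p.b) ⬝ᵥ p.a) = 0
        simp [dotProduct_comm])

/-- `t ↦ (x t, z t)` is a continuously differentiable curve from `p` (time 0) to `q` (time 1). -/
def Joins (p q : N) (x z : ℝ → Fin 3 → ℝ) : Prop :=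
  ContDiff ℝ 1 x ∧ ContDiff ℝ 1 z ∧ p = ⟨x 0, z 0⟩ ∧ q = ⟨x 1, z 1⟩

/-- Second layer component of the left translated velocity of the curve. -/
noncomputable def vert (x z : ℝ → Fin 3 → ℝ) (t : ℝ) : Fin 3 → ℝ :=
  deriv z t - (1 / 2 : ℝ) • crossProduct (x t) (deriv x t)

/-- The distance of the left invariant Riemannian metric which is the standard inner product
on the Lie algebra. -/
noncomputable def dRiem (p q : N) : ℝ :=
  sInf {L : ℝ | ∃ x z : ℝ → Fin 3 → ℝ, Joins p q x z ∧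
    L = ∫ t in (0 : ℝ)..1, Real.sqrt (deriv x t ⬝ᵥ deriv x t + vert x z t ⬝ᵥ vert x z t)}

/-- The Carnot Caratheodory distance: infimum of the lengths of horizontal curves. -/
noncomputable def dCC (p q : N) : ℝ :=
  sInf {L : ℝ | ∃ x z : ℝ → Fin 3 → ℝ, Joins p q x z ∧ (∀ t ∈ Set.Icc (0 : ℝ) 1, vert x z t = 0) ∧
    L = ∫ t in (0 : ℝ)..1, Real.sqrt (deriv x t ⬝ᵥ deriv x t)}

/-- Quasiisometries with respect to a distance function. -/
def IsQI (d : N → N → ℝ) (f : N → N) : Prop :=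
  ∃ L C : ℝ, 1 ≤ L ∧ 0 ≤ C ∧
    (∀ p q, L⁻¹ * d p q - C ≤ d (f p) (f q) ∧ d (f p) (f q) ≤ L * d p q + C) ∧
    ∀ q, ∃ p, d q (f p) ≤ C

end Pool.Agent.Lib.MP_40d5d3_al
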