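import Mathlib
import Pool.Agent.Lib.MP_40d5d3_al.Defs

-- part Pool.Agent.Lib.MP_40d5d3_al.Alg
section

set_option autoImplicit false

open Matrix
open scoped commutatorElement

namespace Pool.Agent.Lib.MP_40d5d3_al

@[simp] lemma mul_x (p q : N) : (p * q).x = p.x + q.x := rfl
@[simp] lemma mul_z (p q : N) :
    (p * q).z = p.z + q.z + (1 / 2 : ℝ) • crossProduct p.x q.x := rfl
@[simp] lemma inv_x (p : N) : (p⁻¹).x = -p.x := rfl
@[simp] lemma inv_z (p : N) : (p⁻¹).z = -p.z := rfl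
@[simp] lemma one_x : (1 : N).x = 0 := rfl
@[simp] lemma one_z : (1 : N).z = 0 := rfl

lemma comm_x (p q : N) : (⁅p, q⁆ : N).x = 0 := by
  rw [commutatorElement_def]; simp

lemma comm_z (p q : N) : (⁅p, q⁆ : N).z = crossProduct p.x q.x := by
  rw [commutatorElement_def]
  ext i
  fin_cases i <;> simp [cross_apply] <;> ring

/-- Every vector is a cross product of two vectors of size about the square root of its size. -/
lemma exists_cross (c : Fin 3 → ℝ) : ∃ u w : Fin 3 → ℝ, crossProduct u w = c ∧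
    ‖u‖ ≤ Real.sqrt ‖c‖ ∧ ‖w‖ ≤ Real.sqrt ‖c‖ := by
  rcases eq_or_ne c 0 with rfl | hc
  · exact ⟨0, 0, by simp, by simp, by simp⟩
  obtain ⟨i, hi⟩ : ∃ i, ‖c i‖ = ‖c‖ := by
    obtain ⟨i, -, hi⟩ := Finset.exists_max_image Finset.univ (fun j => ‖c j‖) Finset.univ_nonempty
    exact ⟨i, le_antisymm (norm_le_pi_norm c i)
      ((pi_norm_le_iff_of_nonneg (norm_nonneg _)).2 (fun j => hi j (Finset.mem_univ j)))⟩
  have hn : 0 < ‖c‖ := norm_pos_iff.2 hc
  set r := Real.sqrt ‖c‖ with hr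
  have hr0 : 0 < r := Real.sqrt_pos.2 hn
  have hr2 : r * r = ‖c‖ := Real.mul_self_sqrt hn.le
  have hb : ∀ j, |c j| ≤ ‖c‖ := fun j => norm_le_pi_norm c j
  rw [Real.norm_eq_abs] at hi
  have hci : c i ≠ 0 := by
    intro h; rw [h, abs_zero] at hi; linarith
  have h1 : ∀ j, |r * (c j / c i)| ≤ r := by
    intro j
    rw [abs_mul, abs_of_pos hr0, abs_div, hi]
    exact mul_le_of_le_one_right hr0.le ((div_le_one hn).2 (hb j))
  have h2 : ∀ j, |c j / r| ≤ r := by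
    intro j
    rw [abs_div, abs_of_pos hr0, div_le_iff₀ hr0, hr2]; exact hb j
  have h3 : |r| ≤ r := (abs_of_pos hr0).le
  fin_cases i
  · simp only [Fin.zero_eta] at *
    refine ⟨![-(r * (c 1 / c 0)), r, 0], ![-(c 2 / r), 0, c 0 / r], ?_, ?_, ?_⟩
    · ext j; fin_cases j <;> simp [cross_apply] <;> field_simp
    · refine (pi_norm_le_iff_of_nonneg hr0.le).2 (fun j => ?_)
      fin_cases j <;> simp only [Real.norm_eq_abs] <;> simp [-abs_mul, h1, h3, hr0.le]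
    · refine (pi_norm_le_iff_of_nonneg hr0.le).2 (fun j => ?_)
      fin_cases j <;> simp only [Real.norm_eq_abs] <;> simp [h2, hr0.le]
  · simp only [Fin.mk_one] at *
    refine ⟨![0, -(r * (c 2 / c 1)), r], ![c 1 / r, -(c 0 / r), 0], ?_, ?_, ?_⟩
    · ext j; fin_cases j <;> simp [cross_apply] <;> field_simp
    · refine (pi_norm_le_iff_of_nonneg hr0.le).2 (fun j => ?_)
      fin_cases j <;> simp only [Real.norm_eq_abs] <;> simp [-abs_mul, h1, h3, hr0.le]
    · refine (pi_norm_le_iff_of_nonneg hr0.le).2 (fun j => ?_)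
      fin_cases j <;> simp only [Real.norm_eq_abs] <;> simp [h2, hr0.le]
  · simp only [Fin.reduceFinMk] at *
    refine ⟨![r, 0, -(r * (c 0 / c 2))], ![0, c 2 / r, -(c 1 / r)], ?_, ?_, ?_⟩
    · ext j; fin_cases j <;> simp [cross_apply] <;> field_simp
    · refine (pi_norm_le_iff_of_nonneg hr0.le).2 (fun j => ?_)
      fin_cases j <;> simp only [Real.norm_eq_abs] <;> simp [-abs_mul, h1, h3, hr0.le]
    · refine (pi_norm_le_iff_of_nonneg hr0.le).2 (fun j => ?_)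
      fin_cases j <;> simp only [Real.norm_eq_abs] <;> simp [h2, hr0.le]

lemma mem_lcs_iff (k : N) : k ∈ (⊤ : Subgroup N).lowerCentralSeries 1 ↔ k.x = 0 := by
  rw [Subgroup.top_lowerCentralSeries_one]
  constructor
  · intro hk
    let φ : N →* Multiplicative (Fin 3 → ℝ) :=
      { toFun := fun p => Multiplicative.ofAdd p.x
        map_one' := rfl
        map_mul' := fun _ _ => rfl }
    have := Abelianization.commutator_subset_ker φ hk
    exact this
  · intro hk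
    obtain ⟨u, w, h, -⟩ := exists_cross k.z
    have : k = ⁅(⟨u, 0⟩ : N), (⟨w, 0⟩ : N)⁆ := N.ext (by rw [comm_x, hk]) (by rw [comm_z, h])
    rw [this]
    exact Subgroup.commutator_mem_commutator (Subgroup.mem_top _) (Subgroup.mem_top _)

lemma no_euclid (B : Type) [Group B] : IsEmpty (N ≃* Multiplicative ℝ × B) := by
  refine ⟨fun e => ?_⟩
  set p := e.symm (Multiplicative.ofAdd 1, 1) with hp
  have hc : ∀ q : N, ⁅p, q⁆ = 1 := by
    intro q
    apply e.injective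
    rw [map_commutatorElement, map_one, hp, e.apply_symm_apply, commutatorElement_eq_one_iff_mul_comm]
    exact Prod.ext (mul_comm _ _) (by simp)
  have hx : p.x = 0 := by
    have h0 := congrArg N.z (hc ⟨![1, 0, 0], 0⟩)
    have h1 := congrArg N.z (hc ⟨![0, 1, 0], 0⟩)
    rw [comm_z] at h0 h1
    have a1 := congrFun h0 1
    have a2 := congrFun h0 2
    have a3 := congrFun h1 2
    simp [cross_apply] at a1 a2 a3
    ext i; fin_cases i <;> simp [a1, a2, a3]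
  have hm := (mem_lcs_iff p).2 hx
  rw [Subgroup.top_lowerCentralSeries_one] at hm
  have := Abelianization.commutator_subset_ker
    ((MonoidHom.fst (Multiplicative ℝ) B).comp e.toMonoidHom) hm
  rw [MonoidHom.mem_ker] at this
  simp [hp] at this

@[simp] lemma Heis.mul_a {n : ℕ} (p q : Heis n) : (p * q).a = p.a + q.a := rfl
@[simp] lemma Heis.mul_b {n : ℕ} (p q : Heis n) : (p * q).b = p.b + q.b := rfl
@[simp] lemma Heis.mul_c {n : ℕ} (p q : Heis n) :
    (p * q).c = p.c + q.c + (1 / 2 : ℝ) * (p.a ⬝ᵥ q.b - p.b ⬝ᵥ q.a) := rfl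
@[simp] lemma Heis.inv_a {n : ℕ} (p : Heis n) : (p⁻¹).a = -p.a := rfl
@[simp] lemma Heis.inv_b {n : ℕ} (p : Heis n) : (p⁻¹).b = -p.b := rfl
@[simp] lemma Heis.inv_c {n : ℕ} (p : Heis n) : (p⁻¹).c = -p.c := rfl
@[simp] lemma Heis.one_a {n : ℕ} : (1 : Heis n).a = 0 := rfl
@[simp] lemma Heis.one_b {n : ℕ} : (1 : Heis n).b = 0 := rfl
@[simp] lemma Heis.one_c {n : ℕ} : (1 : Heis n).c = 0 := rfl

lemma Heis.comm_eq {n : ℕ} (p q : Heis n) :
    (⁅p, q⁆ : Heis n) = ⟨0, 0, p.a ⬝ᵥ q.b - p.b ⬝ᵥ q.a⟩ := by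
  rw [commutatorElement_def]
  refine Heis.ext (by simp) (by simp) ?_
  simp [dotProduct_comm]
  ring

lemma no_heis (n : ℕ) (hn : 1 ≤ n) (B : Type) [Group B] : IsEmpty (N ≃* Heis n × B) := by
  refine ⟨fun e => ?_⟩
  let i : Fin n := ⟨0, hn⟩
  let A : Heis n × B := (⟨Pi.single i 1, 0, 0⟩, 1)
  let A' : Heis n × B := (⟨0, Pi.single i 1, 0⟩, 1)
  have hcomm : ∀ X Y : Heis n × B, ⁅X, Y⁆ = (⁅X.1, Y.1⁆, ⁅X.2, Y.2⁆) := fun _ _ => rfl
  set p := e.symm A with hp
  set q := e.symm A' with hq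
  have h1 : ⁅p, q⁆ ≠ 1 := by
    intro h
    have := congrArg e h
    rw [map_commutatorElement, map_one, hp, hq, e.apply_symm_apply, e.apply_symm_apply,
      hcomm] at this
    have h2 := congrArg (fun X : Heis n × B => X.1.c) this
    simp [Heis.comm_eq, A, A'] at h2
  have h2 : ∀ g : N, ∃ g' : N, ⁅p, g⁆ = ⁅q, g'⁆ := by
    intro g
    refine ⟨e.symm (⟨Pi.single i (-(e g).1.b i), 0, 0⟩, 1), e.injective ?_⟩
    rw [map_commutatorElement, map_commutatorElement, hp, hq, e.apply_symm_apply,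
      e.apply_symm_apply, e.apply_symm_apply, hcomm, hcomm]
    simp [Heis.comm_eq, A, A']
  apply h1
  obtain ⟨g', hg'⟩ := h2 ⟨crossProduct p.x q.x, 0⟩
  have h3 := congrArg N.z hg'
  rw [comm_z, comm_z] at h3
  have h4 : q.x ⬝ᵥ crossProduct p.x (crossProduct p.x q.x) = 0 := by
    rw [h3, dot_self_cross]
  have h5 : crossProduct p.x q.x ⬝ᵥ crossProduct p.x q.x = 0 := by
    simp [cross_apply, dotProduct, Fin.sum_univ_three] at h4 ⊢
    linarith
  refine N.ext (comm_x _ _) ?_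
  rw [comm_z, one_z]
  exact dotProduct_self_eq_zero.1 h5

end Pool.Agent.Lib.MP_40d5d3_al
end

-- part Pool.Agent.Lib.MP_40d5d3_al.Metric
section

set_option autoImplicit false

open Matrix Set MeasureTheory

namespace Pool.Agent.Lib.MP_40d5d3_al

/-- A homogeneous gauge of degree two. -/
noncomputable def mu (g : N) : ℝ := ‖g.x‖ ^ 2 + ‖g.z‖

lemma mu_nonneg (g : N) : 0 ≤ mu g := by unfold mu; positivity

lemma norm_cross_le (a b : Fin 3 → ℝ) : ‖crossProduct a b‖ ≤ 2 * (‖a‖ * ‖b‖) := by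
  have h : ∀ i j, |a i * b j| ≤ ‖a‖ * ‖b‖ := fun i j => by
    rw [abs_mul]
    exact mul_le_mul (norm_le_pi_norm a i) (norm_le_pi_norm b j) (abs_nonneg _) (norm_nonneg _)
  have h2 : ∀ i j k l, |a i * b j - a k * b l| ≤ 2 * (‖a‖ * ‖b‖) := fun i j k l =>
    (abs_sub _ _).trans (by linarith [h i j, h k l])
  refine (pi_norm_le_iff_of_nonneg (by positivity)).2 (fun j => ?_)
  fin_cases j <;> simp only [Real.norm_eq_abs, cross_apply] <;> exact h2 _ _ _ _

lemma norm_half_cross_le (a b : Fin 3 → ℝ) : ‖(1 / 2 : ℝ) • crossProduct a b‖ ≤ ‖a‖ * ‖b‖ := by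
  rw [norm_smul]
  have := norm_cross_le a b
  norm_num
  linarith

lemma dot_nonneg (v : Fin 3 → ℝ) : 0 ≤ v ⬝ᵥ v := by
  simp only [dotProduct, Fin.sum_univ_three]
  nlinarith [mul_self_nonneg (v 0), mul_self_nonneg (v 1), mul_self_nonneg (v 2)]

lemma norm_le_sqrt {v : Fin 3 → ℝ} {s : ℝ} (h : v ⬝ᵥ v ≤ s) : ‖v‖ ≤ Real.sqrt s := by
  refine (pi_norm_le_iff_of_nonneg (Real.sqrt_nonneg _)).2 (fun j => ?_)
  refine Real.abs_le_sqrt (le_trans ?_ h)
  simp only [dotProduct, Fin.sum_univ_three]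
  fin_cases j <;> simp <;>
    nlinarith [mul_self_nonneg (v 0), mul_self_nonneg (v 1), mul_self_nonneg (v 2)]

lemma sqrt_dot_le (v : Fin 3 → ℝ) : Real.sqrt (v ⬝ᵥ v) ≤ 2 * ‖v‖ := by
  rw [Real.sqrt_le_left (by positivity)]
  have h : ∀ i, v i * v i ≤ ‖v‖ ^ 2 := fun i => by
    have := norm_le_pi_norm v i
    rw [Real.norm_eq_abs] at this
    rw [← sq, ← sq_abs]
    gcongr
  simp only [dotProduct, Fin.sum_univ_three]
  nlinarith [h 0, h 1, h 2, sq_nonneg ‖v‖]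

lemma cont_cross {f g : ℝ → Fin 3 → ℝ} (hf : Continuous f) (hg : Continuous g) :
    Continuous (fun t => crossProduct (f t) (g t)) := by
  refine continuous_pi (fun i => ?_)
  fin_cases i <;> simp [cross_apply] <;> fun_prop

lemma lower_curve {p q : N} {x z : ℝ → Fin 3 → ℝ} (h : Joins p q x z) {L : ℝ}
    (hL : L = ∫ t in (0 : ℝ)..1,
      Real.sqrt (deriv x t ⬝ᵥ deriv x t + vert x z t ⬝ᵥ vert x z t)) :
    Real.sqrt (mu (p⁻¹ * q)) ≤ 2 * L + 1 := by
  obtain ⟨hx, hz, rfl, rfl⟩ := h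
  have cx := hx.continuous
  have cx' := hx.continuous_deriv_one
  have cz' := hz.continuous_deriv_one
  have dx : ∀ t, HasDerivAt x (deriv x t) t := fun t =>
    (hx.differentiable one_ne_zero t).hasDerivAt
  have dz : ∀ t, HasDerivAt z (deriv z t) t := fun t =>
    (hz.differentiable one_ne_zero t).hasDerivAt
  have cv : Continuous (vert x z) := cz'.sub ((cont_cross cx cx').const_smul (1 / 2 : ℝ))
  set ℓ : ℝ → ℝ := fun t =>
    Real.sqrt (deriv x t ⬝ᵥ deriv x t + vert x z t ⬝ᵥ vert x z t) with hℓ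
  have cℓ : Continuous ℓ := by
    simp only [hℓ, dotProduct]
    fun_prop
  have hℓ0 : ∀ t, 0 ≤ ℓ t := fun t => Real.sqrt_nonneg _
  have b1 : ∀ t, ‖deriv x t‖ ≤ ℓ t := fun t => norm_le_sqrt (by linarith [dot_nonneg (vert x z t)])
  have b2 : ∀ t, ‖vert x z t‖ ≤ ℓ t := fun t => norm_le_sqrt (by linarith [dot_nonneg (deriv x t)])
  have hL0 : 0 ≤ L := hL ▸ intervalIntegral.integral_nonneg zero_le_one (fun t _ => hℓ0 t)
  have hy : ∀ t ∈ Icc (0 : ℝ) 1, ‖x t - x 0‖ ≤ L := by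
    intro t ht
    rw [← intervalIntegral.integral_eq_sub_of_hasDerivAt (fun s _ => dx s)
      (cx'.intervalIntegrable _ _)]
    refine (intervalIntegral.norm_integral_le_of_norm_le ht.1
      (Filter.Eventually.of_forall (fun s _ => b1 s)) (cℓ.intervalIntegrable _ _)).trans ?_
    rw [hL]
    exact intervalIntegral.integral_mono_interval le_rfl ht.1 ht.2
      (Filter.Eventually.of_forall hℓ0) (cℓ.intervalIntegrable _ _)
  let C : (Fin 3 → ℝ) →L[ℝ] (Fin 3 → ℝ) := (crossProduct (x 0)).toContinuousLinearMap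
  have dZ : ∀ t, HasDerivAt (fun t => z t - (1 / 2 : ℝ) • crossProduct (x 0) (x t))
      (vert x z t + (1 / 2 : ℝ) • crossProduct (x t - x 0) (deriv x t)) t := by
    intro t
    have h1 : HasDerivAt (fun t => crossProduct (x 0) (x t)) (crossProduct (x 0) (deriv x t)) t :=
      C.hasFDerivAt.comp_hasDerivAt t (dx t)
    refine HasDerivAt.congr_deriv ((dz t).sub (h1.const_smul (1 / 2 : ℝ))) ?_
    simp only [vert, map_sub, LinearMap.sub_apply, smul_sub]
    abel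
  have hZ : ‖(z 1 - (1 / 2 : ℝ) • crossProduct (x 0) (x 1)) -
      (z 0 - (1 / 2 : ℝ) • crossProduct (x 0) (x 0))‖ ≤ (1 + L) * L := by
    rw [← intervalIntegral.integral_eq_sub_of_hasDerivAt (fun s _ => dZ s)
      ((cv.add ((cont_cross (cx.sub continuous_const) cx').const_smul (1 / 2 : ℝ))
        ).intervalIntegrable _ _)]
    refine (intervalIntegral.norm_integral_le_of_norm_le (g := fun t => (1 + L) * ℓ t) zero_le_one
      (Filter.Eventually.of_forall (fun s hs => ?_))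
      ((continuous_const.mul cℓ).intervalIntegrable _ _)).trans ?_
    · refine (norm_add_le _ _).trans ?_
      have h1 := norm_half_cross_le (x s - x 0) (deriv x s)
      have h2 : ‖x s - x 0‖ * ‖deriv x s‖ ≤ L * ℓ s :=
        mul_le_mul (hy s ⟨hs.1.le, hs.2⟩) (b1 s) (norm_nonneg _) hL0
      linarith [b2 s]
    · rw [intervalIntegral.integral_const_mul, ← hL]
  have e1 : ((⟨x 0, z 0⟩ : N)⁻¹ * ⟨x 1, z 1⟩).x = x 1 - x 0 := by
    simp only [mul_x, inv_x]; abel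
  have e2 : ((⟨x 0, z 0⟩ : N)⁻¹ * ⟨x 1, z 1⟩).z = (z 1 - (1 / 2 : ℝ) • crossProduct (x 0) (x 1)) -
      (z 0 - (1 / 2 : ℝ) • crossProduct (x 0) (x 0)) := by
    simp only [mul_z, inv_x, inv_z, map_neg, LinearMap.neg_apply, smul_neg, cross_self, smul_zero]
    abel
  rw [Real.sqrt_le_left (by positivity), mu, e1, e2]
  have h3 : ‖x 1 - x 0‖ ^ 2 ≤ L ^ 2 := by
    gcongr
    exact hy 1 ⟨zero_le_one, le_rfl⟩
  nlinarith

lemma exists_curve (p q : N) : ∃ x z : ℝ → Fin 3 → ℝ, Joins p q x z ∧ (∀ t, vert x z t = 0) ∧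
    ∫ t in (0 : ℝ)..1, Real.sqrt (deriv x t ⬝ᵥ deriv x t) ≤ 10000 * Real.sqrt (mu (p⁻¹ * q)) := by
  obtain ⟨u, w, huw, hu, hw⟩ := exists_cross (p⁻¹ * q).z
  set a := (p⁻¹ * q).x with ha
  let φ : ℝ → ℝ := fun t => t - 3 * t ^ 2 + 2 * t ^ 3
  let ψ : ℝ → ℝ := fun t => -70 * (t - 6 * t ^ 2 + 10 * t ^ 3 - 5 * t ^ 4)
  let I₁ : ℝ → ℝ := fun t => (1 / 2) * (-t ^ 3 + t ^ 4)
  let I₂ : ℝ → ℝ := fun t => -35 * (-2 * t ^ 3 + 5 * t ^ 4 - 3 * t ^ 5)
  let I₃ : ℝ → ℝ := fun t =>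
    -35 * (-t ^ 3 + 4 * t ^ 4 - 33 / 5 * t ^ 5 + 5 * t ^ 6 - 10 / 7 * t ^ 7)
  let x : ℝ → Fin 3 → ℝ := fun t => p.x + t • a + φ t • u + ψ t • w
  let z : ℝ → Fin 3 → ℝ := fun t => p.z + I₁ t • crossProduct a u + I₂ t • crossProduct a w +
    I₃ t • crossProduct u w + t • ((1 / 2 : ℝ) • crossProduct p.x a) +
    φ t • ((1 / 2 : ℝ) • crossProduct p.x u) + ψ t • ((1 / 2 : ℝ) • crossProduct p.x w)
  have dp : ∀ (n : ℕ) (t : ℝ), HasDerivAt (fun t : ℝ => t ^ n) (n * t ^ (n - 1)) t :=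
    fun n t => hasDerivAt_pow n t
  have dφ : ∀ t, HasDerivAt φ (1 - 6 * t + 6 * t ^ 2) t := fun t => by
    refine HasDerivAt.congr_deriv
      (((hasDerivAt_id t).sub ((dp 2 t).const_mul 3)).add ((dp 3 t).const_mul 2)) ?_
    norm_num; ring
  have dψ : ∀ t, HasDerivAt ψ (-70 * (1 - 12 * t + 30 * t ^ 2 - 20 * t ^ 3)) t := fun t => by
    refine HasDerivAt.congr_deriv
      (((((hasDerivAt_id t).sub ((dp 2 t).const_mul 6)).add ((dp 3 t).const_mul 10)).sub
      ((dp 4 t).const_mul 5)).const_mul (-70)) ?_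
    norm_num; ring
  have dI₁ : ∀ t, HasDerivAt I₁ ((1 / 2) * (-3 * t ^ 2 + 4 * t ^ 3)) t := fun t => by
    refine HasDerivAt.congr_deriv (((dp 3 t).neg.add (dp 4 t)).const_mul (1 / 2)) ?_
    norm_num
  have dI₂ : ∀ t, HasDerivAt I₂ (-35 * (-6 * t ^ 2 + 20 * t ^ 3 - 15 * t ^ 4)) t := fun t => by
    refine HasDerivAt.congr_deriv (((((dp 3 t).const_mul (-2)).add ((dp 4 t).const_mul 5)).sub
      ((dp 5 t).const_mul 3)).const_mul (-35)) ?_
    norm_num; ring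
  have dI₃ : ∀ t, HasDerivAt I₃
      (-35 * (-3 * t ^ 2 + 16 * t ^ 3 - 33 * t ^ 4 + 30 * t ^ 5 - 10 * t ^ 6)) t := fun t => by
    refine HasDerivAt.congr_deriv
      ((((((dp 3 t).neg.add ((dp 4 t).const_mul 4)).sub ((dp 5 t).const_mul (33 / 5))).add
      ((dp 6 t).const_mul 5)).sub ((dp 7 t).const_mul (10 / 7))).const_mul (-35)) ?_
    norm_num; ring
  have dx : ∀ t, deriv x t = (1 : ℝ) • a + (1 - 6 * t + 6 * t ^ 2) • u +
      (-70 * (1 - 12 * t + 30 * t ^ 2 - 20 * t ^ 3)) • w := fun t =>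
    (((((hasDerivAt_id t).smul_const a).const_add p.x).add ((dφ t).smul_const u)).add
      ((dψ t).smul_const w)).deriv
  have dz : ∀ t, deriv z t = ((1 / 2) * (-3 * t ^ 2 + 4 * t ^ 3)) • crossProduct a u +
      (-35 * (-6 * t ^ 2 + 20 * t ^ 3 - 15 * t ^ 4)) • crossProduct a w +
      (-35 * (-3 * t ^ 2 + 16 * t ^ 3 - 33 * t ^ 4 + 30 * t ^ 5 - 10 * t ^ 6)) • crossProduct u w +
      (1 : ℝ) • ((1 / 2 : ℝ) • crossProduct p.x a) +
      (1 - 6 * t + 6 * t ^ 2) • ((1 / 2 : ℝ) • crossProduct p.x u) +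
      (-70 * (1 - 12 * t + 30 * t ^ 2 - 20 * t ^ 3)) • ((1 / 2 : ℝ) • crossProduct p.x w) :=
    fun t => ((((((((dI₁ t).smul_const _).const_add p.z).add ((dI₂ t).smul_const _)).add
      ((dI₃ t).smul_const _)).add ((hasDerivAt_id t).smul_const _)).add
      ((dφ t).smul_const _)).add ((dψ t).smul_const _)).deriv
  refine ⟨x, z, ⟨?_, ?_, ?_, ?_⟩, fun t => ?_, ?_⟩
  · simp only [x, φ, ψ]; fun_prop
  · simp only [z, φ, ψ, I₁, I₂, I₃]; fun_prop
  · refine N.ext ?_ ?_ <;> simp [x, z, φ, ψ, I₁, I₂, I₃]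
  · have hq : q = p * (p⁻¹ * q) := by group
    refine N.ext ?_ ?_
    · conv_lhs => rw [hq]
      rw [mul_x, ← ha]
      simp only [x, φ, ψ]
      norm_num
    · conv_lhs => rw [hq]
      rw [mul_z, ← ha, ← huw]
      simp only [z, φ, ψ, I₁, I₂, I₃]
      norm_num
  · unfold vert
    rw [dx, dz]
    ext i
    fin_cases i <;> simp [cross_apply, x, φ, ψ] <;> ring
  · have hm := mu_nonneg (p⁻¹ * q)
    set r := Real.sqrt (mu (p⁻¹ * q)) with hr
    have h1 : ‖a‖ ≤ r := by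
      refine Real.le_sqrt_of_sq_le ?_
      unfold mu; linarith [norm_nonneg (p⁻¹ * q).z]
    have h2 : Real.sqrt ‖(p⁻¹ * q).z‖ ≤ r := by
      refine Real.sqrt_le_sqrt ?_
      unfold mu; linarith [sq_nonneg ‖(p⁻¹ * q).x‖]
    have hr0 : 0 ≤ r := Real.sqrt_nonneg _
    have := intervalIntegral.norm_integral_le_of_norm_le_const (a := 0) (b := 1)
      (C := 10000 * r) (f := fun t => Real.sqrt (deriv x t ⬝ᵥ deriv x t)) (fun t ht => by
        rw [uIoc_of_le zero_le_one] at ht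
        rw [Real.norm_eq_abs, abs_of_nonneg (Real.sqrt_nonneg _)]
        refine (sqrt_dot_le _).trans ?_
        rw [dx]
        have t0 := ht.1.le
        have t1 := ht.2
        have t2 : t ^ 2 ≤ 1 := pow_le_one₀ t0 t1
        have t3 : t ^ 3 ≤ 1 := pow_le_one₀ t0 t1
        have s2 : 0 ≤ t ^ 2 := by positivity
        have s3 : 0 ≤ t ^ 3 := by positivity
        have c1 : |1 - 6 * t + 6 * t ^ 2| ≤ 13 := by rw [abs_le]; constructor <;> linarith
        have c2 : |-70 * (1 - 12 * t + 30 * t ^ 2 - 20 * t ^ 3)| ≤ 4410 := by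
          rw [abs_le]; constructor <;> linarith
        have n1 := norm_add₃_le (a := (1 : ℝ) • a) (b := (1 - 6 * t + 6 * t ^ 2) • u)
          (c := (-70 * (1 - 12 * t + 30 * t ^ 2 - 20 * t ^ 3)) • w)
        simp only [norm_smul, Real.norm_eq_abs, abs_one, one_mul] at n1
        have n2 : |1 - 6 * t + 6 * t ^ 2| * ‖u‖ ≤ 13 * r :=
          mul_le_mul c1 (hu.trans h2) (norm_nonneg _) (by norm_num)
        have n3 : |-70 * (1 - 12 * t + 30 * t ^ 2 - 20 * t ^ 3)| * ‖w‖ ≤ 4410 * r :=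
          mul_le_mul c2 (hw.trans h2) (norm_nonneg _) (by norm_num)
        linarith)
    rw [Real.norm_eq_abs] at this
    have h4 := le_abs_self (∫ t in (0 : ℝ)..1, Real.sqrt (deriv x t ⬝ᵥ deriv x t))
    norm_num at this
    linarith

lemma len_eq {x z : ℝ → Fin 3 → ℝ} (h : ∀ t ∈ Icc (0 : ℝ) 1, vert x z t = 0) :
    ∫ t in (0 : ℝ)..1, Real.sqrt (deriv x t ⬝ᵥ deriv x t) =
      ∫ t in (0 : ℝ)..1, Real.sqrt (deriv x t ⬝ᵥ deriv x t + vert x z t ⬝ᵥ vert x z t) := by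
  refine intervalIntegral.integral_congr (fun t ht => ?_)
  rw [uIcc_of_le zero_le_one] at ht
  simp [h t ht]

theorem compare {d : N → N → ℝ} (hd : d ∈ ({dRiem, dCC} : Set (N → N → ℝ))) (p q : N) :
    Real.sqrt (mu (p⁻¹ * q)) ≤ 2 * d p q + 1 ∧ d p q ≤ 10000 * Real.sqrt (mu (p⁻¹ * q)) := by
  obtain ⟨x, z, hJ, hv, hlen⟩ := exists_curve p q
  rcases hd with rfl | rfl
  · constructor
    · have : (Real.sqrt (mu (p⁻¹ * q)) - 1) / 2 ≤ dRiem p q := by
        refine le_csInf ⟨_, x, z, hJ, rfl⟩ ?_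
        rintro L ⟨x', z', hJ', hL⟩
        linarith [lower_curve hJ' hL]
      linarith
    · refine csInf_le_of_le ⟨0, ?_⟩ ⟨x, z, hJ, rfl⟩ ?_
      · rintro L ⟨x', z', -, rfl⟩
        exact intervalIntegral.integral_nonneg zero_le_one (fun t _ => Real.sqrt_nonneg _)
      · rw [← len_eq (fun t _ => hv t)]; exact hlen
  · constructor
    · have : (Real.sqrt (mu (p⁻¹ * q)) - 1) / 2 ≤ dCC p q := by
        refine le_csInf ⟨_, x, z, hJ, fun t _ => hv t, rfl⟩ ?_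
        rintro L ⟨x', z', hJ', hv', hL⟩
        rw [len_eq hv'] at hL
        linarith [lower_curve hJ' hL]
      linarith
    · refine csInf_le_of_le ⟨0, ?_⟩ ⟨x, z, hJ, fun t _ => hv t, rfl⟩ hlen
      rintro L ⟨x', z', -, -, rfl⟩
      exact intervalIntegral.integral_nonneg zero_le_one (fun t _ => Real.sqrt_nonneg _)

end Pool.Agent.Lib.MP_40d5d3_al
end

-- part Pool.Agent.Lib.MP_40d5d3_al.Shear
section

set_option autoImplicit false

open Matrix Set

namespace Pool.Agent.Lib.MP_40d5d3_al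

/-- The direction of the shear. -/
def v₀ : Fin 3 → ℝ := ![1, 0, 0]

lemma norm_v₀ : ‖v₀‖ ≤ 1 := by
  refine (pi_norm_le_iff_of_nonneg zero_le_one).2 (fun j => ?_)
  fin_cases j <;> simp [v₀]

/-- The logarithmic amount of shear. -/
noncomputable def lam (g : N) : ℝ := (1 / 10) * Real.log (1 + mu g)

/-- The logarithmic shear. -/
noncomputable def shear (g : N) : N := (⟨lam g • v₀, 0⟩ : N) * g

lemma mu_inv (g : N) : mu g⁻¹ = mu g := by simp [mu]

lemma shear_x (p q : N) : ((shear p)⁻¹ * shear q).x = (lam q - lam p) • v₀ + (p⁻¹ * q).x := by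
  ext i
  simp [shear]
  ring

lemma shear_z (p q : N) : ((shear p)⁻¹ * shear q).z = (p⁻¹ * q).z +
    (lam q - lam p) • crossProduct v₀ p.x +
    (lam q - lam p) • ((1 / 2 : ℝ) • crossProduct v₀ (p⁻¹ * q).x) := by
  ext i
  fin_cases i <;> simp [shear, cross_apply, v₀, Matrix.vecHead, Matrix.vecTail] <;> ring

lemma shear_est_aux {p q : N} (h : mu p ≤ mu q) :
    Real.sqrt (mu ((shear p)⁻¹ * shear q)) ≤ 2 * Real.sqrt (mu (p⁻¹ * q)) + 1 ∧
    Real.sqrt (mu (p⁻¹ * q)) ≤ 3 * Real.sqrt (mu ((shear p)⁻¹ * shear q)) + 3 := by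
  have hm := mu_nonneg (p⁻¹ * q)
  have hp := mu_nonneg p
  set r := Real.sqrt (mu (p⁻¹ * q)) with hr
  have hr0 : 0 ≤ r := Real.sqrt_nonneg _
  have hr2 : r ^ 2 = ‖(p⁻¹ * q).x‖ ^ 2 + ‖(p⁻¹ * q).z‖ := Real.sq_sqrt hm
  have hq : mu q ≤ mu p + 3 * (‖p.x‖ * ‖(p⁻¹ * q).x‖) + r ^ 2 := by
    have e : q = p * (p⁻¹ * q) := by group
    conv_lhs => rw [e]
    unfold mu
    rw [mul_x, mul_z, hr2]
    have h1 := norm_add_le p.x (p⁻¹ * q).x
    have h2 := norm_add₃_le (a := p.z) (b := (p⁻¹ * q).z)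
      (c := (1 / 2 : ℝ) • crossProduct p.x (p⁻¹ * q).x)
    have h3 := norm_half_cross_le p.x (p⁻¹ * q).x
    have h4 : ‖p.x + (p⁻¹ * q).x‖ ^ 2 ≤ (‖p.x‖ + ‖(p⁻¹ * q).x‖) ^ 2 := by gcongr
    nlinarith
  have hX := shear_x p q
  have hZ := shear_z p q
  set a := (p⁻¹ * q).x
  set c := (p⁻¹ * q).z
  set X := ‖p.x‖ with hXd
  have hX0 : 0 ≤ X := norm_nonneg _
  have ha0 := norm_nonneg a
  have hc0 := norm_nonneg c
  have har : ‖a‖ ≤ r := by
    refine (pow_le_pow_iff_left₀ ha0 hr0 two_ne_zero).1 (by linarith)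
  have hXp : X ^ 2 ≤ mu p := by unfold mu; linarith [norm_nonneg p.z]
  set s := lam q - lam p with hs
  set ρ := (1 + mu q) / (1 + mu p) with hρ
  have hsρ : s = (1 / 10) * Real.log ρ := by
    rw [hs, hρ, Real.log_div (by linarith) (by linarith)]; unfold lam; ring
  have hρ1 : 1 ≤ ρ := by rw [hρ, one_le_div (by linarith)]; linarith
  have hs0 : 0 ≤ s := by rw [hsρ]; have := Real.log_nonneg hρ1; linarith
  have hρ2 : (ρ - 1) * (1 + X ^ 2) ≤ 3 * (X * r) + r ^ 2 := by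
    have h1 : (ρ - 1) * (1 + mu p) = mu q - mu p := by rw [hρ]; field_simp; ring
    have h2 : (ρ - 1) * (1 + X ^ 2) ≤ (ρ - 1) * (1 + mu p) :=
      mul_le_mul_of_nonneg_left (by linarith) (by linarith)
    have h3 : X * ‖a‖ ≤ X * r := mul_le_mul_of_nonneg_left har hX0
    linarith
  have hX2 : 0 < 1 + X ^ 2 := by positivity
  have hρ3 : (ρ - 1) * X ≤ 3 * r + r ^ 2 / 2 := by
    refine le_of_mul_le_mul_right ?_ hX2
    have h1 := mul_le_mul_of_nonneg_right hρ2 hX0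
    have h2 : 0 ≤ r ^ 2 * (X - 1) ^ 2 := by positivity
    nlinarith
  have hρ4 : ρ ≤ (1 + r) ^ 2 := by
    have : (ρ - 1) ≤ 2 * r + r ^ 2 := by
      refine le_of_mul_le_mul_right ?_ hX2
      have h2 : 0 ≤ r * (X - 1) ^ 2 := by positivity
      have h3 : 0 ≤ r ^ 2 * X ^ 2 := by positivity
      have h4 : 0 ≤ r * X := by positivity
      nlinarith
    nlinarith
  have hs1 : s ≤ r / 5 := by
    have h1 : Real.log ρ ≤ Real.log ((1 + r) ^ 2) := Real.log_le_log (by linarith) hρ4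
    have h2 := Real.log_le_sub_one_of_pos (show 0 < 1 + r by linarith)
    rw [Real.log_pow] at h1
    push_cast at h1
    linarith
  have hs2 : s * X ≤ (3 * r + r ^ 2 / 2) / 10 := by
    have h1 := Real.log_le_sub_one_of_pos (show 0 < ρ by linarith)
    have h2 : Real.log ρ * X ≤ (ρ - 1) * X := mul_le_mul_of_nonneg_right h1 hX0
    rw [hsρ]; linarith
  have n1 : ‖s • v₀‖ ≤ s := by
    rw [norm_smul, Real.norm_eq_abs, abs_of_nonneg hs0]
    exact mul_le_of_le_one_right hs0 norm_v₀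
  have n2 : ‖s • crossProduct v₀ p.x‖ ≤ 2 * (s * X) := by
    rw [norm_smul, Real.norm_eq_abs, abs_of_nonneg hs0]
    have h1 := norm_cross_le v₀ p.x
    have h2 : ‖v₀‖ * X ≤ 1 * X := mul_le_mul_of_nonneg_right norm_v₀ hX0
    have h3 : s * ‖crossProduct v₀ p.x‖ ≤ s * (2 * X) :=
      mul_le_mul_of_nonneg_left (by linarith) hs0
    linarith
  have hsa : s * ‖a‖ ≤ r / 5 * r := mul_le_mul hs1 har ha0 (by linarith)
  have n3 : ‖s • ((1 / 2 : ℝ) • crossProduct v₀ a)‖ ≤ s * ‖a‖ := by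
    rw [norm_smul, Real.norm_eq_abs, abs_of_nonneg hs0]
    have h1 := norm_half_cross_le v₀ a
    have h2 : ‖v₀‖ * ‖a‖ ≤ 1 * ‖a‖ := mul_le_mul_of_nonneg_right norm_v₀ ha0
    exact mul_le_mul_of_nonneg_left (by linarith) hs0
  have hm' := mu_nonneg ((shear p)⁻¹ * shear q)
  set r' := Real.sqrt (mu ((shear p)⁻¹ * shear q)) with hr'
  have hr0' : 0 ≤ r' := Real.sqrt_nonneg _
  have hr2' : r' ^ 2 = ‖s • v₀ + a‖ ^ 2 + ‖c + s • crossProduct v₀ p.x +
      s • ((1 / 2 : ℝ) • crossProduct v₀ a)‖ := by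
    rw [hr', Real.sq_sqrt hm', mu, hX, hZ]
  have u1 := norm_add_le (s • v₀) a
  have u2 := norm_add₃_le (a := c) (b := s • crossProduct v₀ p.x)
    (c := s • ((1 / 2 : ℝ) • crossProduct v₀ a))
  have l1 : ‖a‖ ≤ ‖s • v₀ + a‖ + ‖s • v₀‖ := by
    simpa using norm_sub_le (s • v₀ + a) (s • v₀)
  have l2 : ‖c‖ ≤ ‖c + s • crossProduct v₀ p.x + s • ((1 / 2 : ℝ) • crossProduct v₀ a)‖ +
      ‖s • crossProduct v₀ p.x‖ + ‖s • ((1 / 2 : ℝ) • crossProduct v₀ a)‖ := by
    have := norm_add₃_le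
      (a := c + s • crossProduct v₀ p.x + s • ((1 / 2 : ℝ) • crossProduct v₀ a))
      (b := -(s • crossProduct v₀ p.x)) (c := -(s • ((1 / 2 : ℝ) • crossProduct v₀ a)))
    rw [norm_neg, norm_neg] at this
    refine le_trans (le_of_eq ?_) this
    congr 1; abel
  have hA0 := norm_nonneg (s • v₀ + a)
  set A := ‖s • v₀ + a‖
  set Z := ‖c + s • crossProduct v₀ p.x + s • ((1 / 2 : ℝ) • crossProduct v₀ a)‖
  constructor
  · refine (pow_le_pow_iff_left₀ hr0' (by positivity) two_ne_zero).1 ?_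
    have h1 : A ^ 2 ≤ (r / 5 + r) ^ 2 := by gcongr; linarith
    nlinarith [sq_nonneg ‖a‖]
  · refine (pow_le_pow_iff_left₀ hr0 (by positivity) two_ne_zero).1 ?_
    have h1 : ‖a‖ ^ 2 - 2 * (s * ‖a‖) ≤ A ^ 2 := by
      rcases le_total ‖a‖ s with h' | h'
      · nlinarith
      · have : (‖a‖ - s) ^ 2 ≤ A ^ 2 := by
          have : 0 ≤ ‖a‖ - s := by linarith
          gcongr; linarith
        nlinarith
    have h2 : 3 / 10 * r ^ 2 - 6 / 10 * r ≤ r' ^ 2 := by nlinarith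
    nlinarith [sq_nonneg (r - 3)]

lemma shear_est (p q : N) :
    Real.sqrt (mu ((shear p)⁻¹ * shear q)) ≤ 2 * Real.sqrt (mu (p⁻¹ * q)) + 1 ∧
    Real.sqrt (mu (p⁻¹ * q)) ≤ 3 * Real.sqrt (mu ((shear p)⁻¹ * shear q)) + 3 := by
  rcases le_total (mu p) (mu q) with h | h
  · exact shear_est_aux h
  · have := shear_est_aux h
    rwa [← mu_inv ((shear q)⁻¹ * shear p), ← mu_inv (q⁻¹ * p), _root_.mul_inv_rev,
      _root_.mul_inv_rev, inv_inv, inv_inv] at this

lemma shear_surj (y : N) : ∃ p, shear p = y := by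
  let P : ℝ → N := fun t => (⟨(-t) • v₀, 0⟩ : N) * y
  have hc : Continuous (fun t => lam (P t) - t) := by
    have h1 : Continuous (fun t => mu (P t)) := by
      have := cont_cross (f := fun t : ℝ => (-t) • v₀) (g := fun _ => y.x) (by fun_prop)
        continuous_const
      simp only [mu, P, mul_x, mul_z]
      fun_prop
    refine (continuous_const.mul (Continuous.log (continuous_const.add h1) (fun t => ?_))).sub
      continuous_id
    have := mu_nonneg (P t)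
    change 1 + mu (P t) ≠ 0
    linarith
  set R := ‖y.x‖ + ‖y.z‖ + 1 with hR
  have hx0 := norm_nonneg y.x
  have hz0 := norm_nonneg y.z
  have h0 : 0 ≤ lam (P 0) - 0 := by
    have := Real.log_nonneg (show 1 ≤ 1 + mu (P 0) by linarith [mu_nonneg (P 0)])
    unfold lam; linarith
  have h1 : lam (P R) - R ≤ 0 := by
    have n1 : ‖(-R) • v₀‖ ≤ R := by
      rw [norm_smul, Real.norm_eq_abs, abs_neg, abs_of_nonneg (by linarith)]
      exact mul_le_of_le_one_right (by linarith) norm_v₀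
    have hmu : 1 + mu (P R) ≤ (1 + 3 * R) ^ 2 := by
      simp only [mu, P, mul_x, mul_z, zero_add]
      have a1 := norm_add_le ((-R) • v₀) y.x
      have a2 := norm_add_le y.z ((1 / 2 : ℝ) • crossProduct ((-R) • v₀) y.x)
      have a3 := norm_half_cross_le ((-R) • v₀) y.x
      have a4 : ‖(-R) • v₀‖ * ‖y.x‖ ≤ R * R := mul_le_mul n1 (by linarith) hx0 (by linarith)
      have a5 : ‖(-R) • v₀ + y.x‖ ^ 2 ≤ (2 * R) ^ 2 := by gcongr; linarith
      nlinarith
    have h2 : Real.log (1 + mu (P R)) ≤ Real.log ((1 + 3 * R) ^ 2) :=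
      Real.log_le_log (by linarith [mu_nonneg (P R)]) hmu
    have h3 := Real.log_le_sub_one_of_pos (show 0 < 1 + 3 * R by linarith)
    rw [Real.log_pow] at h2
    push_cast at h2
    unfold lam; linarith
  obtain ⟨t, -, ht⟩ := intermediate_value_Icc' (show (0 : ℝ) ≤ R by linarith) hc.continuousOn
    (show (0 : ℝ) ∈ Icc (lam (P R) - R) (lam (P 0) - 0) from ⟨h1, h0⟩)
  refine ⟨P t, ?_⟩
  have ht' : lam (P t) = t := by linarith [show lam (P t) - t = 0 from ht]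
  unfold shear
  rw [ht']
  simp only [P, ← mul_assoc]
  have : (⟨t • v₀, 0⟩ : N) * ⟨(-t) • v₀, 0⟩ = 1 := N.ext (by simp) (by simp)
  rw [this, one_mul]

theorem shear_qi {d : N → N → ℝ} (hd : d ∈ ({dRiem, dCC} : Set (N → N → ℝ))) :
    IsQI d shear := by
  refine ⟨60000, 40000, by norm_num, by norm_num, fun p q => ?_, fun q => ?_⟩
  · obtain ⟨a1, a2⟩ := compare hd p q
    obtain ⟨b1, b2⟩ := compare hd (shear p) (shear q)
    obtain ⟨c1, c2⟩ := shear_est p q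
    have := Real.sqrt_nonneg (mu (p⁻¹ * q))
    have := Real.sqrt_nonneg (mu ((shear p)⁻¹ * shear q))
    constructor <;> linarith
  · obtain ⟨p, hp⟩ := shear_surj q
    refine ⟨p, ?_⟩
    have := (compare hd q q).2
    rw [hp]
    simp [mu] at this
    linarith

theorem shear_far {d : N → N → ℝ} (hd : d ∈ ({dRiem, dCC} : Set (N → N → ℝ))) (h : N) (D : ℝ) :
    ∃ k ∈ (⊤ : Subgroup N).lowerCentralSeries 1, ∀ k' ∈ (⊤ : Subgroup N).lowerCentralSeries 1,
      D < d (shear k) (h * k') := by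
  set T := |h.x 0| + 2 * |D| + 2 with hT
  refine ⟨⟨0, Real.exp (10 * T) • v₀⟩, (mem_lcs_iff _).2 rfl, fun k' hk' => ?_⟩
  rw [mem_lcs_iff] at hk'
  set k : N := ⟨0, Real.exp (10 * T) • v₀⟩ with hk
  have h1 : T ≤ lam k := by
    have a1 : Real.exp (10 * T) ≤ 1 + mu k := by
      have := norm_le_pi_norm k.z 0
      simp only [hk, v₀, Pi.smul_apply, Matrix.cons_val_zero, smul_eq_mul, mul_one,
        Real.norm_eq_abs, Real.abs_exp] at this
      simp only [mu, hk, v₀]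
      linarith [sq_nonneg ‖(0 : Fin 3 → ℝ)‖]
    have := (Real.le_log_iff_exp_le (by linarith [mu_nonneg k])).2 a1
    unfold lam; linarith
  have h2 := (compare hd (shear k) (h * k')).1
  have h3 : |((shear k)⁻¹ * (h * k')).x 0| ≤ Real.sqrt (mu ((shear k)⁻¹ * (h * k'))) := by
    refine (norm_le_pi_norm ((shear k)⁻¹ * (h * k')).x 0).trans (Real.le_sqrt_of_sq_le ?_)
    unfold mu; linarith [norm_nonneg ((shear k)⁻¹ * (h * k')).z]
  have h4 : ((shear k)⁻¹ * (h * k')).x 0 = -lam k + h.x 0 := by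
    simp [shear, hk', hk, v₀]
  rw [h4] at h3
  have h5 := neg_abs_le (-lam k + h.x 0)
  have h6 := le_abs_self (h.x 0)
  have h7 := le_abs_self D
  linarith

end Pool.Agent.Lib.MP_40d5d3_al
end
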